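import Mathlib
import Pool.Agent.Helper4.CFE.Shear

/-!
# Crossing-free edge colourings of complete geometric graphs: `f(n) ≤ 0.8091 n + 6/5`

Every set of `n` points in general position in the plane admits a crossing-free colouring of the
edges of its complete geometric graph with at most `(1 + √5) / 4 * n + 6 / 5` colours.
-/

set_option autoImplicit false

namespace Pool.Agent.Results.MP_968049_co.GoldenRatio

/-- points of the plane -/
abbrev Point := ℝ × ℝ

/-- No three distinct points of `P` are collinear. -/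
def InGeneralPosition (P : Finset Point) : Prop :=
  ∀ p ∈ P, ∀ q ∈ P, ∀ r ∈ P, p ≠ q → p ≠ r → q ≠ r → ¬ Collinear ℝ ({p, q, r} : Set Point)

/-- The edges of the complete geometric graph `K(P)`: unordered pairs of distinct points of `P`. -/
def Edge (P : Finset Point) : Type := {e : Sym2 Point // ¬ e.IsDiag ∧ ∀ x ∈ e, x ∈ P}

/-- The closed segment spanned by an unordered pair of points. -/
def seg : Sym2 Point → Set Point :=
  Sym2.lift ⟨fun p q => segment ℝ p q, fun p q => segment_symm ℝ p q⟩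

/-- Two different edges cross if their segments have a common point that is not an endpoint of
both. -/
def Cross (e f : Sym2 Point) : Prop :=
  e ≠ f ∧ ∃ x, x ∈ seg e ∧ x ∈ seg f ∧ ¬ (x ∈ e ∧ x ∈ f)

/-- `K(P)` has a crossing-free edge colouring with `k` colours. -/
def Colorable (P : Finset Point) (k : ℕ) : Prop :=
  ∃ c : Edge P → Fin k, ∀ e f : Edge P, Cross e.1 f.1 → c e ≠ c f

/-- The set of the values `χ(P)` (least number of colours) over all sets `P` of `n` points in
general position. -/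
def chiValues (n : ℕ) : Set ℕ :=
  {k | ∃ P : Finset Point, P.card = n ∧ InGeneralPosition P ∧ IsLeast {j | Colorable P j} k}

/-- `f(n)`, the maximum of `χ(P)` over all sets `P` of `n` points in general position. -/
noncomputable def f (n : ℕ) : ℕ := sSup (chiValues n)

open Pool.Agent.Helper60.CrossFree

theorem gp_of {P : Finset Point} (h : InGeneralPosition P) : GP P := by
  intro p hp q hq r hr h1 h2 h3 h0
  exact h p hp q hq r hr h1 h2 h3 (collinear_of_det h0)

theorem colorable_of_cov {P : Finset Point} {k : ℕ} (h : Cov P k) : Colorable P k := by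
  classical
  obtain ⟨G, hG1, hG2⟩ := h
  have key : ∀ e : Edge P, ∃ i : Fin k, ∃ u v, e.1 = s(u, v) ∧ G i u v := by
    rintro ⟨e, he1, he2⟩
    induction e using Sym2.ind with
    | _ u v =>
      have huv : u ≠ v := by simpa using he1
      obtain ⟨i, hi⟩ := hG2 u (he2 u (by simp)) v (he2 v (by simp)) huv
      rcases hi with hi | hi
      · exact ⟨i, u, v, rfl, hi⟩
      · exact ⟨i, v, u, Sym2.eq_swap, hi⟩
  choose c hc using key
  refine ⟨c, ?_⟩
  intro e f ⟨hne, x, hx1, hx2, hx3⟩ hcol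
  obtain ⟨u, v, he, hu⟩ := hc e
  obtain ⟨u', v', hf, hu'⟩ := hc f
  rw [hcol] at hu
  rw [he] at hne hx1 hx3
  rw [hf] at hne hx2 hx3
  rcases hG1 _ u v u' v' hu hu' with h | h
  · exact hne h
  · apply h
    refine ⟨x, hx1, hx2, ?_⟩
    simpa only [Sym2.mem_iff] using hx3

theorem colorable_empty (P : Finset Point) (h : P = ∅) : Colorable P 0 := by
  subst h
  refine ⟨fun e => ?_, fun e => ?_⟩
  · exfalso
    obtain ⟨e, he1, he2⟩ := e
    induction e using Sym2.ind with
    | _ u v => exact absurd (he2 u (by simp)) (by simp)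
  · exfalso
    obtain ⟨e, he1, he2⟩ := e
    induction e using Sym2.ind with
    | _ u v => exact absurd (he2 u (by simp)) (by simp)

theorem colorable_card {P : Finset Point} (h : InGeneralPosition P) : Colorable P (P.card - 1) := by
  rcases P.eq_empty_or_nonempty with h0 | h0
  · rw [h0]; simpa using colorable_empty ∅ rfl
  · exact colorable_of_cov (cov_trivial (gp_of h) h0)

theorem chiValues_le {n k : ℕ} (hk : k ∈ chiValues n) : k ≤ n - 1 := by
  obtain ⟨P, hP, hgp, hl⟩ := hk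
  have := hl.2 (colorable_card hgp)
  rwa [hP] at this

/-- points on a parabola are in general position -/
theorem parabola (n : ℕ) : ∃ P : Finset Point, P.card = n ∧ InGeneralPosition P := by
  classical
  have hinj : Function.Injective (fun i : ℕ => (((i : ℝ), (i : ℝ) ^ 2) : Point)) := by
    intro i j h
    have := congrArg Prod.fst h
    simpa using this
  refine ⟨(Finset.range n).map ⟨_, hinj⟩, by simp, ?_⟩
  intro p hp q hq r hr h1 h2 h3 hcol
  simp only [Finset.mem_map, Finset.mem_range, Function.Embedding.coeFn_mk] at hp hq hr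
  obtain ⟨i, -, rfl⟩ := hp
  obtain ⟨j, -, rfl⟩ := hq
  obtain ⟨k, -, rfl⟩ := hr
  have hij : (i : ℝ) ≠ j := fun h => h1 (by rw [h])
  have hik : (i : ℝ) ≠ k := fun h => h2 (by rw [h])
  have hjk : (j : ℝ) ≠ k := fun h => h3 (by rw [h])
  rw [collinear_iff_of_mem (p₀ := (((i : ℝ), (i : ℝ) ^ 2) : Point)) (by simp)] at hcol
  obtain ⟨v, hv⟩ := hcol
  obtain ⟨s, hs⟩ := hv (((j : ℝ), (j : ℝ) ^ 2) : Point) (by simp)
  obtain ⟨t, ht⟩ := hv (((k : ℝ), (k : ℝ) ^ 2) : Point) (by simp)
  have s1 := congrArg Prod.fst hs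
  have s2 := congrArg Prod.snd hs
  have t1 := congrArg Prod.fst ht
  have t2 := congrArg Prod.snd ht
  simp only [vadd_eq_add, Prod.fst_add, Prod.snd_add, Prod.smul_fst, Prod.smul_snd,
    smul_eq_mul] at s1 s2 t1 t2
  have e : ((j : ℝ) - i) * ((k : ℝ) - i) * ((k : ℝ) - j) = 0 := by
    have a1 : (j : ℝ) - i = s * v.1 := by linarith
    have a2 : (j : ℝ) ^ 2 - (i : ℝ) ^ 2 = s * v.2 := by linarith
    have a3 : (k : ℝ) - i = t * v.1 := by linarith
    have a4 : (k : ℝ) ^ 2 - (i : ℝ) ^ 2 = t * v.2 := by linarith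
    have e1 : ((j : ℝ) - i) * ((k : ℝ) ^ 2 - (i : ℝ) ^ 2) =
        ((j : ℝ) ^ 2 - (i : ℝ) ^ 2) * ((k : ℝ) - i) := by
      rw [a1, a2, a3, a4]; ring
    linear_combination e1
  rcases mul_eq_zero.mp e with h | h
  · rcases mul_eq_zero.mp h with h | h
    · exact hij (by linarith)
    · exact hik (by linarith)
  · exact hjk (by linarith)

theorem chiValues_nonempty (n : ℕ) : (chiValues n).Nonempty := by
  obtain ⟨P, hP, hgp⟩ := parabola n
  have hne : {j | Colorable P j}.Nonempty := ⟨_, colorable_card hgp⟩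
  exact ⟨sInf {j | Colorable P j}, P, hP, hgp, Nat.sInf_mem hne, fun j hj => Nat.sInf_le hj⟩

theorem f_isGreatest (n : ℕ) : IsGreatest (chiValues n) (f n) := by
  have hb : BddAbove (chiValues n) := ⟨n - 1, fun k hk => chiValues_le hk⟩
  exact ⟨Nat.sSup_mem (chiValues_nonempty n) hb, fun k hk => le_csSup hb hk⟩

/-- The maximum `f(n)` exists, `f(n) ≤ ⌊n/2⌋ + ⌊c ⌊n/2⌋⌋ + 1 + (n mod 2)` with
`c = (√5 - 1) / 2`, `f(n) ≤ (1 + √5) / 4 * n + 6 / 5`, and `f(n) ≤ (1 - 1 / 11) n` for `n ≥ 1`. -/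
theorem result :
    (∀ n : ℕ, IsGreatest (chiValues n) (f n)) ∧
    (∀ n : ℕ, f n ≤ n / 2 + ⌊(√5 - 1) / 2 * ((n / 2 : ℕ) : ℝ)⌋₊ + 1 + n % 2) ∧
    (∀ n : ℕ, (f n : ℝ) ≤ (1 + √5) / 4 * n + 6 / 5) ∧
    ∀ n : ℕ, 1 ≤ n → (f n : ℝ) ≤ (1 - 1 / 11) * n := by
  have s5 : √5 ^ 2 = 5 := Real.sq_sqrt (by norm_num)
  have s0 : 0 ≤ √5 := Real.sqrt_nonneg 5
  have s1 : 2.236 < √5 := by nlinarith
  have s2 : √5 < 2.2361 := by nlinarith
  have h2 : ∀ n : ℕ, f n ≤ n / 2 + ⌊(√5 - 1) / 2 * ((n / 2 : ℕ) : ℝ)⌋₊ + 1 + n % 2 := by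
    intro n
    obtain ⟨P, hP, hgp, hl⟩ := (f_isGreatest n).1
    have hcol := colorable_of_cov (Pool.Agent.Helper4.CFE.cov_golden (c := (√5 - 1) / 2)
      (gp_of hgp) (by linarith) (by nlinarith))
    rw [hP] at hcol
    have := hl.2 hcol
    omega
  have h3 : ∀ n : ℕ, (f n : ℝ) ≤ (1 + √5) / 4 * n + 6 / 5 := by
    intro n
    have h4 := h2 n
    set h : ℕ := n / 2 with hh
    have hn : n = 2 * h + n % 2 := by omega
    have hfl : (⌊(√5 - 1) / 2 * (h : ℝ)⌋₊ : ℝ) ≤ (√5 - 1) / 2 * h :=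
      Nat.floor_le (mul_nonneg (by linarith) (Nat.cast_nonneg _))
    have h5 : (f n : ℝ) ≤ h + ⌊(√5 - 1) / 2 * (h : ℝ)⌋₊ + 1 + (n % 2 : ℕ) := by
      exact_mod_cast h4
    have hn' : (n : ℝ) = 2 * h + (n % 2 : ℕ) := by exact_mod_cast hn
    have h6 : ((n % 2 : ℕ) : ℝ) = 0 ∨ ((n % 2 : ℕ) : ℝ) = 1 := by
      rcases Nat.mod_two_eq_zero_or_one n with h | h <;> rw [h] <;> simp
    rcases h6 with h6 | h6
    · rw [h6] at hn' h5
      rw [hn']
      linarith
    · rw [h6] at hn' h5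
      rw [hn']
      linarith
  refine ⟨f_isGreatest, h2, h3, fun n hn => ?_⟩
  rcases Nat.lt_or_ge n 12 with h | h
  · have h4 : f n ≤ n - 1 := chiValues_le (f_isGreatest n).1
    have h5 : 11 * f n ≤ 10 * n := by omega
    have h6 : (11 : ℝ) * f n ≤ 10 * n := by exact_mod_cast h5
    linarith
  · have h4 := h3 n
    have h5 : (12 : ℝ) ≤ n := by exact_mod_cast h
    nlinarith

end Pool.Agent.Results.MP_968049_co.GoldenRatio
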