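import Mathlib
import Pool.Agent.Helper95.CFL.Real
import Pool.Agent.Helper95.CFL.Count

/-!
# Crossing-free edge colourings of complete geometric graphs: `f(n) ≥ (1/2 + δ) n`

For all large `n` there is a set of `n` points in general position whose complete geometric graph
has no crossing-free edge colouring with fewer than `(1/2 + 1/60000) n` colours.
-/

set_option autoImplicit false

namespace Pool.Agent.Results.MP_968049_co.LinearGap

/-- points of the plane -/
abbrev Point := ℝ × ℝ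

/-- No three distinct points of `P` are collinear. -/
def InGeneralPosition (P : Finset Point) : Prop :=
  ∀ p ∈ P, ∀ q ∈ P, ∀ r ∈ P, p ≠ q → p ≠ r → q ≠ r → ¬ Collinear ℝ ({p, q, r} : Set Point)

/-- The edges of the complete geometric graph `K(P)`: unordered pairs of distinct points of `P`. -/
def Edge (P : Finset Point) : Type := {e : Sym2 Point // ¬ e.IsDiag ∧ ∀ x ∈ e, x ∈ P}

/-- The closed segment spanned by an unordered pair of points. -/
def seg : Sym2 Point → Set Point :=
  Sym2.lift ⟨fun p q => segment ℝ p q, fun p q => segment_symm ℝ p q⟩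

/-- Two different edges cross if their segments have a common point that is not an endpoint of
both. -/
def Cross (e f : Sym2 Point) : Prop :=
  e ≠ f ∧ ∃ x, x ∈ seg e ∧ x ∈ seg f ∧ ¬ (x ∈ e ∧ x ∈ f)

/-- `K(P)` has a crossing-free edge colouring with `k` colours. -/
def Colorable (P : Finset Point) (k : ℕ) : Prop :=
  ∃ c : Edge P → Fin k, ∀ e f : Edge P, Cross e.1 f.1 → c e ≠ c f

/-- The set of the values `χ(P)` (least number of colours) over all sets `P` of `n` points in
general position. -/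
def chiValues (n : ℕ) : Set ℕ :=
  {k | ∃ P : Finset Point, P.card = n ∧ InGeneralPosition P ∧ IsLeast {j | Colorable P j} k}

/-- `f(n)`, the maximum of `χ(P)` over all sets `P` of `n` points in general position. -/
noncomputable def f (n : ℕ) : ℕ := sSup (chiValues n)

open Pool.Agent.Helper95.CFL Finset

/-- every point set can be coloured, one colour per edge -/
theorem colorable_some (P : Finset Point) (n : ℕ) (h : P.card = n) :
    Colorable P (n * n) := by
  classical
  have hinj : Function.Injective fun x : {x // x ∈ P} => x := fun _ _ h => h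
  let e : {x // x ∈ P} ≃ Fin n := (P.equivFin).trans (finCongr h)
  have key : ∀ d : Edge P, ∃ i : Fin (n * n), ∃ p q : {x // x ∈ P}, d.1 = s(p.1, q.1) ∧
      i = finProdFinEquiv (e p, e q) := by
    rintro ⟨d, hd1, hd2⟩
    induction d using Sym2.ind with
    | _ u v =>
      exact ⟨_, ⟨u, hd2 u (by simp)⟩, ⟨v, hd2 v (by simp)⟩, rfl, rfl⟩
  choose c hc using key
  refine ⟨c, fun d d' hcr heq => hcr.1 ?_⟩
  obtain ⟨p, q, h1, h2⟩ := hc d
  obtain ⟨p', q', h1', h2'⟩ := hc d'
  rw [h2, h2'] at heq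
  have h3 := finProdFinEquiv.injective heq
  have h4 : e p = e p' := congrArg Prod.fst h3
  have h5 : e q = e q' := congrArg Prod.snd h3
  rw [h1, h1', e.injective h4, e.injective h5]

theorem le_f {n k : ℕ} (P : Finset Point) (hP : P.card = n) (hgp : InGeneralPosition P)
    (h : ∀ j, Colorable P j → k ≤ j) : k ≤ f n := by
  have hne : {j | Colorable P j}.Nonempty := ⟨_, colorable_some P n hP⟩
  have hmem : sInf {j | Colorable P j} ∈ chiValues n :=
    ⟨P, hP, hgp, Nat.sInf_mem hne, fun j hj => Nat.sInf_le hj⟩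
  have hb : BddAbove (chiValues n) := by
    refine ⟨n * n, ?_⟩
    rintro j ⟨Q, hQ, -, hl⟩
    exact hl.2 (colorable_some Q n hQ)
  exact (h _ (Nat.sInf_mem hne)).trans (le_csSup hb hmem)

theorem not_collinear_of_det {p q r : Point} (h : det p q r ≠ 0) :
    ¬ Collinear ℝ ({p, q, r} : Set Point) := by
  intro hcol
  apply h
  rw [collinear_iff_of_mem (p₀ := p) (by simp)] at hcol
  obtain ⟨v, hv⟩ := hcol
  obtain ⟨s, hs⟩ := hv q (by simp)
  obtain ⟨t, ht⟩ := hv r (by simp)
  have s1 := congrArg Prod.fst hs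
  have s2 := congrArg Prod.snd hs
  have t1 := congrArg Prod.fst ht
  have t2 := congrArg Prod.snd ht
  simp only [vadd_eq_add, Prod.fst_add, Prod.snd_add, Prod.smul_fst, Prod.smul_snd,
    smul_eq_mul] at s1 s2 t1 t2
  unfold det
  rw [s1, s2, t1, t2]
  ring

theorem ineq_of_colorable {h z M k : ℕ} (hz : z + 2 ≤ h) (hM : M ≤ 2 * z)
    (hc : Colorable (PP (2 * h) M) k) :
    3 * h ≤ k ∧ ∃ n : ℕ, (n : ℤ) * z ≤ (k - 3 * h) * (4 * h + 1) ∧
      3 * (((4 * h : ℤ) - 2 * z - k - 2 * n) * M) ≤ (k - 3 * h) * (4 * h + 1) + k := by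
  classical
  obtain ⟨c, hc⟩ := hc
  have h1 : gp 0 (sg (2 * h) 0) ∈ PP (2 * h) M := gp_mem 0 (by omega)
  have h2 : gp 0 (sg (2 * h) 1) ∈ PP (2 * h) M := gp_mem 0 (by omega)
  have h3 : gp 0 (sg (2 * h) 0) ≠ gp 0 (sg (2 * h) 1) := by
    intro he
    have := congrArg Prod.snd he
    have h4 : sg (2 * h) 0 = sg (2 * h) 1 := this
    exact absurd h4 (sg_lt (by omega) (by omega)).ne
  have hk : 0 < k := by
    have e : Edge (PP (2 * h) M) := ⟨s(gp 0 (sg (2 * h) 0), gp 0 (sg (2 * h) 1)), by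
      simpa using h3, by
      intro x hx
      rw [Sym2.mem_iff] at hx
      rcases hx with rfl | rfl
      · exact h1
      · exact h2⟩
    exact (c e).pos
  have : NeZero k := ⟨hk.ne'⟩
  let col : Point → Point → Fin k := fun p q =>
    if hpq : ¬ (s(p, q)).IsDiag ∧ ∀ x ∈ s(p, q), x ∈ PP (2 * h) M then c ⟨s(p, q), hpq⟩ else 0
  have hsymm : ∀ p q, col p q = col q p := by
    intro p q
    have : s(p, q) = s(q, p) := Sym2.eq_swap
    simp only [col, this]
  have hcol : ∀ A ∈ PP (2 * h) M, ∀ B ∈ PP (2 * h) M, ∀ C ∈ PP (2 * h) M, ∀ D ∈ PP (2 * h) M,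
      0 < det A B C → 0 < det A B D → 0 < det A C D → 0 < det B C D → col A C ≠ col B D := by
    intro A hA B hB C hC D hD d1 d2 d3 d4
    obtain ⟨⟨x, hx1, hx2⟩, n1, n2, n3, n4, n5, n6⟩ := diag_meet d1 d2 d3 d4
    have e1 : ¬ (s(A, C)).IsDiag ∧ ∀ x ∈ s(A, C), x ∈ PP (2 * h) M := by
      refine ⟨by simpa using n2, ?_⟩
      intro x hx
      rw [Sym2.mem_iff] at hx
      rcases hx with rfl | rfl
      · exact hA
      · exact hC
    have e2 : ¬ (s(B, D)).IsDiag ∧ ∀ x ∈ s(B, D), x ∈ PP (2 * h) M := by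
      refine ⟨by simpa using n5, ?_⟩
      intro x hx
      rw [Sym2.mem_iff] at hx
      rcases hx with rfl | rfl
      · exact hB
      · exact hD
    simp only [col, dif_pos e1, dif_pos e2]
    refine hc _ _ ⟨?_, x, hx1, hx2, ?_⟩
    · intro he
      have he' : s(A, C) = s(B, D) := he
      have : A ∈ s(B, D) := by
        rw [← he']; simp
      rw [Sym2.mem_iff] at this
      rcases this with h | h
      · exact n1 h
      · exact n3 h
    · rintro ⟨m1, m2⟩
      rw [Sym2.mem_iff] at m1 m2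
      rcases m1 with rfl | rfl <;> rcases m2 with h | h
      · exact n1 h
      · exact n3 h
      · exact n4 h.symm
      · exact n6 h
  obtain ⟨S⟩ := exists_col (2 * h) M col hcol hsymm
  have := main_ineq S rfl hz hM
  rw [Fintype.card_fin] at this
  exact this

theorem numeric {h z M k : ℕ} (hz1 : 18 * z ≤ h) (hz2 : h < 18 * z + 18) (hz3 : 30000 ≤ z)
    (hM1 : h ≤ 800 * M) (hM2 : 800 * M < h + 4801)
    (hk : (k : ℝ) < (1 / 2 + 1 / 60000) * (6 * h + M : ℕ)) {n : ℕ}
    (h1 : (n : ℤ) * z ≤ (k - 3 * h) * (4 * h + 1))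
    (h2 : 3 * (((4 * h : ℤ) - 2 * z - k - 2 * n) * M) ≤ (k - 3 * h) * (4 * h + 1) + k) :
    False := by
  have h1' : (n : ℝ) * z ≤ ((k : ℝ) - 3 * h) * (4 * h + 1) := by exact_mod_cast h1
  have h2' : 3 * (((4 * h : ℝ) - 2 * z - k - 2 * n) * M) ≤ ((k : ℝ) - 3 * h) * (4 * h + 1) + k := by
    exact_mod_cast h2
  have z1 : (18 : ℝ) * z ≤ h := by exact_mod_cast hz1
  have z2 : (h : ℝ) < 18 * z + 18 := by exact_mod_cast hz2
  have z3 : (30000 : ℝ) ≤ z := by exact_mod_cast hz3
  have m1 : (h : ℝ) ≤ 800 * M := by exact_mod_cast hM1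
  have m2 : (800 : ℝ) * M < h + 4801 := by exact_mod_cast hM2
  push_cast at hk
  generalize (h : ℝ) = H at *
  generalize (z : ℝ) = Z at *
  generalize (M : ℝ) = m at *
  generalize (k : ℝ) = K at *
  generalize (n : ℝ) = c at *
  have hm0 : 0 < m := by linarith
  -- `x = K - 3 H` is below `7 m / 12`
  have hx : K - 3 * H ≤ 7 / 12 * m := by linarith
  have hH1 : 4 * H + 1 ≤ 7201 / 100 * Z := by linarith
  -- the number of costly classes
  have hc : c ≤ 7 / 12 * (7201 / 100) * m := by
    have e1 : c * Z ≤ 7 / 12 * m * (7201 / 100 * Z) :=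
      h1'.trans (by
        calc (K - 3 * H) * (4 * H + 1) ≤ 7 / 12 * m * (4 * H + 1) :=
              mul_le_mul_of_nonneg_right hx (by linarith)
          _ ≤ 7 / 12 * m * (7201 / 100 * Z) := mul_le_mul_of_nonneg_left hH1 (by linarith))
    have hZ : 0 < Z := by linarith
    have e2 : c * Z ≤ (7 / 12 * (7201 / 100) * m) * Z := by linarith
    exact le_of_mul_le_mul_right e2 hZ
  have e3 : 3 * (H - 2 * Z - 85 * m) * m ≤ (7 / 12 * (4 * H + 2) + 2400) * m := by
    have e4 : 3 * (H - 2 * Z - 85 * m) * m ≤ 3 * ((4 * H - 2 * Z - K - 2 * c) * m) := by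
      have : (H - 2 * Z - 85 * m) * m ≤ (4 * H - 2 * Z - K - 2 * c) * m :=
        mul_le_mul_of_nonneg_right (by linarith) hm0.le
      linarith
    have e5 : (K - 3 * H) * (4 * H + 1) ≤ 7 / 12 * m * (4 * H + 1) :=
      mul_le_mul_of_nonneg_right hx (by linarith)
    have e6 : K ≤ 7 / 12 * m + 2400 * m := by linarith
    have e7 := h2'
    calc 3 * (H - 2 * Z - 85 * m) * m ≤ (K - 3 * H) * (4 * H + 1) + K := e4.trans e7
      _ ≤ 7 / 12 * m * (4 * H + 1) + (7 / 12 * m + 2400 * m) := add_le_add e5 e6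
      _ = (7 / 12 * (4 * H + 2) + 2400) * m := by ring
  have e8 := le_of_mul_le_mul_right e3 hm0
  linarith

/-- For every `n ≥ 10^7` there is a set `P` of `n` points in general position such that every
crossing-free edge colouring of `K(P)` has at least `(1/2 + 1/60000) n` colours. -/
theorem exists_set {n : ℕ} (hn : 10 ^ 7 ≤ n) : ∃ P : Finset Point, P.card = n ∧
    InGeneralPosition P ∧ ∀ k, Colorable P k → (1 / 2 + 1 / 60000 : ℝ) * n ≤ k := by
  set h := 800 * n / 4801 with hh
  have h1 : 4801 * h ≤ 800 * n := Nat.mul_div_le _ _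
  have h2 : 800 * n < 4801 * (h + 1) := by
    have := Nat.lt_mul_div_succ (800 * n) (by norm_num : 0 < 4801)
    rw [← hh] at this
    exact this
  obtain ⟨M, hM⟩ : ∃ M, n = 6 * h + M := ⟨n - 6 * h, by omega⟩
  set z := h / 18 with hz
  have h3 : 18 * z ≤ h := Nat.mul_div_le _ _
  have h4 : h < 18 * z + 18 := by omega
  refine ⟨PP (2 * h) M, ?_, ?_, ?_⟩
  · rw [card_PP (by omega)]; omega
  · intro p hp q hq r hr hpq hpr hqr
    exact not_collinear_of_det (gen_pos p q r hp hq hr hpq hpr hqr)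
  · intro k hk
    by_contra hcon
    rw [not_le] at hcon
    obtain ⟨-, c, hc1, hc2⟩ := ineq_of_colorable (h := h) (z := z) (M := M) (by omega) (by omega) hk
    refine numeric h3 h4 (by omega) (by omega) (by omega) ?_ hc1 hc2
    rw [← hM]
    exact hcon

theorem exists_gp (n : ℕ) : ∃ P : Finset Point, P.card = n ∧ InGeneralPosition P := by
  rcases Nat.lt_or_ge n 3 with hn | hn
  · classical
    have hinj : Function.Injective (fun i : ℕ => (((i : ℝ), (0 : ℝ)) : Point)) := by
      intro i j h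
      have := congrArg Prod.fst h
      simpa using this
    refine ⟨(range n).map ⟨_, hinj⟩, by simp, ?_⟩
    intro p hp q hq r hr hpq hpr hqr
    exfalso
    have h1 : ({p, q, r} : Finset Point).card = 3 := card_eq_three.2 ⟨p, q, r, hpq, hpr, hqr, rfl⟩
    have h2 : ({p, q, r} : Finset Point) ⊆ (range n).map ⟨_, hinj⟩ := by
      intro x hx
      simp only [mem_insert, mem_singleton] at hx
      rcases hx with rfl | rfl | rfl
      · exact hp
      · exact hq
      · exact hr
    have h3 := card_le_card h2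
    rw [h1, card_map, card_range] at h3
    omega
  · refine ⟨PP 1 (n - 3), ?_, ?_⟩
    · rw [card_PP le_rfl]; omega
    · intro p hp q hq r hr hpq hpr hqr
      exact not_collinear_of_det (gen_pos p q r hp hq hr hpq hpr hqr)

theorem f_isGreatest (n : ℕ) : IsGreatest (chiValues n) (f n) := by
  obtain ⟨P, hP, hgp⟩ := exists_gp n
  have hne : {j | Colorable P j}.Nonempty := ⟨_, colorable_some P n hP⟩
  have hne' : (chiValues n).Nonempty :=
    ⟨sInf {j | Colorable P j}, P, hP, hgp, Nat.sInf_mem hne, fun j hj => Nat.sInf_le hj⟩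
  have hb : BddAbove (chiValues n) := by
    refine ⟨n * n, ?_⟩
    rintro j ⟨Q, hQ, -, hl⟩
    exact hl.2 (colorable_some Q n hQ)
  exact ⟨Nat.sSup_mem hne' hb, fun k hk => le_csSup hb hk⟩

/-- The maximum `f(n)` exists for every `n`, and `f(n) ≥ (1/2 + 1/60000) n` for all
`n ≥ 10^7`. -/
theorem result :
    (∀ n : ℕ, IsGreatest (chiValues n) (f n)) ∧
    ∀ n : ℕ, 10 ^ 7 ≤ n → (1 / 2 + 1 / 60000 : ℝ) * n ≤ f n := by
  refine ⟨f_isGreatest, fun n hn => ?_⟩
  obtain ⟨P, hP, hgp, hk⟩ := exists_set hn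
  have h1 : ⌈(1 / 2 + 1 / 60000 : ℝ) * n⌉₊ ≤ f n :=
    le_f P hP hgp fun j hj => Nat.ceil_le.2 (hk j hj)
  exact Nat.ceil_le.1 h1

end Pool.Agent.Results.MP_968049_co.LinearGap
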